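import Pool.Agent.Y461.SG.CDA

/-! # Project SG, task CD: assembly by dominated convergence -/

set_option autoImplicit false

namespace Pool.Agent.Y461.SG

open Finset Filter Topology
open Pool.Agent.H951R4.OD (ch PI Ex)
open Pool.Agent.W114.PQ (Dat Pass EP wX Dk S_GS S_GD)
open Pool.Agent.Y346.SG

/-- the count for the cofactor `a` -/
noncomputable def NP (D : Dat) (a t X : ℕ) : ℕ :=
  {p : ℕ | p.Prime ∧ t < p ∧ p ≤ X / a ∧ Pass D (a * p)}.ncard

lemma NP_fin (D : Dat) (a t X : ℕ) :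
    {p : ℕ | p.Prime ∧ t < p ∧ p ≤ X / a ∧ Pass D (a * p)}.Finite :=
  (Set.finite_le_nat (X / a)).subset fun _ hp => hp.2.2.1

lemma NP_le_NN (D : Dat) (a t X : ℕ) : NP D a t X ≤ Pool.Agent.W407.PQ.C2.NN D a X := by
  refine Set.ncard_le_ncard ?_ (Pool.Agent.W407.PQ.C2.fin_B D a X)
  intro p hp
  exact ⟨hp.1, hp.2.2.1, hp.2.2.2⟩

lemma NP_triv (D : Dat) (a t X : ℕ) (ha : 1 ≤ a) (hX : 2 ≤ X) (h : a ^ 4 ≤ X) :
    (NP D a t X : ℝ) * Real.log X ≤ 10 * ((X : ℝ) / a) := by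
  have h2 : a ^ 2 ≤ X := (Nat.pow_le_pow_right ha (by norm_num)).trans h
  have h1 := Pool.Agent.W407.PQ.C2.cheb X a ha hX h2
  have h3 : (NP D a t X : ℝ) ≤ Nat.primeCounting (X / a) := by
    exact_mod_cast (NP_le_NN D a t X).trans (Pool.Agent.W407.PQ.C2.NN_le_pi D a X)
  exact (mul_le_mul_of_nonneg_right h3 (Real.log_natCast_nonneg _)).trans h1

lemma inv_le {g : ℕ} (hg : 1 ≤ g) : 1 / (g : ℝ) ≤ (g : ℝ) ^ (-(5 / 6) : ℝ) := by
  have h1 : (1 : ℝ) ≤ g := by exact_mod_cast hg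
  rw [one_div, ← Real.rpow_neg_one]
  exact Real.rpow_le_rpow_of_exponent_le h1 (by norm_num)

/-- many prime factors -/
lemma inv_le' (D : Dat) {g t k : ℕ} (hg : 1 ≤ g) (ht : 2 ≤ t) (h : 80 ≤ Nat.log 2 t)
    (ho : (Nat.log 2 t) ^ 3 < g.primeFactors.card + k) :
    1 / (g : ℝ) ≤ 2 ^ k * (g : ℝ) ^ (-(5 / 6) : ℝ) * sv D t := by
  set l := Nat.log 2 t with hl
  have h1 : (0 : ℝ) < g := by exact_mod_cast hg
  have hl80 : (80 : ℝ) ≤ l := by exact_mod_cast h
  have e1 : (2 * l) ^ 6 ≤ g * 2 ^ k := by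
    have a1 : 2 * l ≤ 2 ^ (l + 1) := by
      have : l < 2 ^ l := Nat.lt_two_pow_self
      rw [pow_succ]
      omega
    have a2 : (l + 1) * 6 ≤ l ^ 3 := by
      nlinarith [Nat.pow_le_pow_left h 2, sq_nonneg l]
    calc (2 * l) ^ 6 ≤ (2 ^ (l + 1)) ^ 6 := Nat.pow_le_pow_left a1 6
      _ = 2 ^ ((l + 1) * 6) := (pow_mul _ _ _).symm
      _ ≤ 2 ^ (g.primeFactors.card + k) := Nat.pow_le_pow_right (by norm_num) (a2.trans ho.le)
      _ = 2 ^ g.primeFactors.card * 2 ^ k := pow_add _ _ _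
      _ ≤ g * 2 ^ k := Nat.mul_le_mul_right _ (omega_pow hg)
  have e2 : (2 * (l : ℝ)) ^ 6 ≤ g * 2 ^ k := by exact_mod_cast e1
  have hl2 : (1 : ℝ) ≤ 2 * (l : ℝ) := by linarith
  have hl0 : (0 : ℝ) < 2 * (l : ℝ) := by linarith
  have e3 : ((g : ℝ) * 2 ^ k) ^ (-(1 / 6) : ℝ) ≤ (2 * (l : ℝ)) ^ (-(1 / 4) : ℝ) := by
    calc ((g : ℝ) * 2 ^ k) ^ (-(1 / 6) : ℝ) ≤ ((2 * (l : ℝ)) ^ 6) ^ (-(1 / 6) : ℝ) :=
          Real.rpow_le_rpow_of_nonpos (by positivity) e2 (by norm_num)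
      _ = (2 * (l : ℝ)) ^ (-1 : ℝ) := by
          rw [← Real.rpow_natCast, ← Real.rpow_mul hl0.le]
          norm_num
      _ ≤ (2 * (l : ℝ)) ^ (-(1 / 4) : ℝ) :=
          Real.rpow_le_rpow_of_exponent_le hl2 (by norm_num)
  have e4 : (g : ℝ) ^ (-(1 / 6) : ℝ) ≤ 2 ^ k * ((g : ℝ) * 2 ^ k) ^ (-(1 / 6) : ℝ) := by
    have hk : (1 : ℝ) ≤ 2 ^ k := one_le_pow₀ (by norm_num)
    rw [Real.mul_rpow h1.le (by positivity), mul_comm ((g : ℝ) ^ (-(1 / 6) : ℝ)), ← mul_assoc]
    have h5 : (1 : ℝ) ≤ 2 ^ k * (2 ^ k) ^ (-(1 / 6) : ℝ) := by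
      have h6 : (2 : ℝ) ^ k * (2 ^ k) ^ (-(1 / 6) : ℝ) = (2 ^ k) ^ (5 / 6 : ℝ) := by
        nth_rewrite 1 [← Real.rpow_one ((2 : ℝ) ^ k)]
        rw [← Real.rpow_add (by positivity)]
        norm_num
      rw [h6]
      exact Real.one_le_rpow hk (by norm_num)
    have h7 : 0 ≤ (g : ℝ) ^ (-(1 / 6) : ℝ) := Real.rpow_nonneg h1.le _
    nlinarith
  have e5 := sv_ge' D ht
  rw [← hl] at e5
  have e6 : 1 / (g : ℝ) = (g : ℝ) ^ (-(5 / 6) : ℝ) * (g : ℝ) ^ (-(1 / 6) : ℝ) := by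
    rw [← Real.rpow_add h1, one_div, ← Real.rpow_neg_one]
    norm_num
  rw [e6]
  have hR : 0 ≤ (g : ℝ) ^ (-(5 / 6) : ℝ) := Real.rpow_nonneg h1.le _
  calc (g : ℝ) ^ (-(5 / 6) : ℝ) * (g : ℝ) ^ (-(1 / 6) : ℝ) ≤
      (g : ℝ) ^ (-(5 / 6) : ℝ) * (2 ^ k * sv D t) := by
        apply mul_le_mul_of_nonneg_left _ hR
        refine e4.trans (mul_le_mul_of_nonneg_left (e3.trans e5) (by positivity))
    _ = _ := by ring

/-- the bound for one term -/
lemma term (D : Dat) (k C : ℕ)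
    (hC : ∀ X Y Q a t : ℕ, 3 ≤ Y → Y ≤ Q →
      Q ^ C ≤ X → 1 ≤ a → a ^ 4 ≤ X → a.primeFactors.card ≤ Y → Ex D.c0 a t →
      |∑ q ∈ PI Y Q, cf D q * ch (t : ℤ) q / q| ≤ 1 / 2 →
      ({p : ℕ | p.Prime ∧ t < p ∧ p ≤ X / a ∧ Pass D (a * p)}.ncard : ℝ) * Real.log X ≤
        C * ((X : ℝ) / a) * (Real.log Y / Real.log Q) ^ (1 / 2 : ℝ))
    (X : ℕ) (hX : 2 ≤ X) (hw : (wX X) ^ C ≤ X) (g : ℕ) (ps : Finset ℕ) (hg : 1 ≤ g)
    (hps : ∀ p ∈ ps, p.Prime ∧ p ≤ wX X) (hcard : ps.card < k) (hne : ps.Nonempty)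
    (hEx : ∀ p ∈ ps, Ex D.c0 (g * ∏ p ∈ ps, p) p) (ha4 : (g * ∏ p ∈ ps, p) ^ 4 ≤ X) :
    (NP D (g * ∏ p ∈ ps, p) (ps.sup id) X : ℝ) * Real.log X / X ≤
      (40 + 10 * C + 10 * 2 ^ k) *
        ((g : ℝ) ^ (-(5 / 6) : ℝ) * ((∏ p ∈ ps, (1 / (p : ℝ))) * sv D (ps.sup id))) := by
  obtain ⟨t, htps, ht⟩ := Finset.exists_mem_eq_sup ps hne id
  have ht' : ps.sup id = t := ht
  rw [ht']
  set a : ℕ := g * ∏ p ∈ ps, p with hadef
  have hprod1 : 1 ≤ ∏ p ∈ ps, p := Finset.one_le_prod' fun p hp => (hps p hp).1.one_le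
  have ha1 : 1 ≤ a := Nat.mul_pos hg hprod1
  have hX0 : (0 : ℝ) < X := by
    have : 0 < X := by omega
    exact_mod_cast this
  have hg0 : (0 : ℝ) < g := by exact_mod_cast hg
  set P : ℝ := ∏ p ∈ ps, (1 / (p : ℝ)) with hP
  have hP0 : 0 ≤ P := Finset.prod_nonneg fun p _ => by positivity
  set R : ℝ := (g : ℝ) ^ (-(5 / 6) : ℝ) with hR
  have hR0 : 0 ≤ R := Real.rpow_nonneg hg0.le _
  have hs0 := sv_nonneg D t
  have hXa : (X : ℝ) / a = X * ((1 / g) * P) := by
    rw [hadef, Nat.cast_mul, Nat.cast_prod, hP, Finset.prod_div_distrib, Finset.prod_const_one,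
      div_eq_mul_one_div, one_div_mul_one_div]
  have htp : t.Prime := (hps t htps).1
  have ht2 : 2 ≤ t := htp.two_le
  have hk0 : (0 : ℝ) ≤ 2 ^ k := by positivity
  have hRPs : 0 ≤ R * (P * sv D t) := by positivity
  have hC0 : (0 : ℝ) ≤ C := Nat.cast_nonneg _
  rw [div_le_iff₀ hX0]
  have triv := NP_triv D a t X ha1 hX ha4
  rw [hXa] at triv
  have hgR := inv_le hg
  rw [← hR] at hgR
  -- from a bound of the trivial estimate
  have fin1 : ∀ c : ℝ, 0 ≤ c → 1 / (g : ℝ) ≤ c * R * sv D t →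
      10 * c ≤ 40 + 10 * C + 10 * 2 ^ k →
      (NP D a t X : ℝ) * Real.log X ≤ (40 + 10 * C + 10 * 2 ^ k) * (R * (P * sv D t)) * X := by
    intro c hc h1 h2
    calc (NP D a t X : ℝ) * Real.log X ≤ 10 * (X * (1 / g * P)) := triv
      _ ≤ 10 * (X * ((c * R * sv D t) * P)) := by
          apply mul_le_mul_of_nonneg_left _ (by norm_num)
          apply mul_le_mul_of_nonneg_left _ hX0.le
          exact mul_le_mul_of_nonneg_right h1 hP0
      _ = (10 * c) * ((R * (P * sv D t)) * X) := by ring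
      _ ≤ (40 + 10 * C + 10 * 2 ^ k) * ((R * (P * sv D t)) * X) :=
          mul_le_mul_of_nonneg_right h2 (by positivity)
      _ = _ := by ring
  by_cases hE : Exc D t
  · have h1 := sv_exc D hE
    refine fin1 1 zero_le_one ?_ (by nlinarith)
    rw [one_mul]
    exact hgR.trans (le_mul_of_one_le_right hR0 h1)
  rcases Nat.lt_or_ge (Nat.log 2 t) 80 with hl | hl
  · have h1 := sv_small D ht2 hl
    refine fin1 4 (by norm_num) ?_ (by nlinarith)
    calc 1 / (g : ℝ) ≤ R * 1 := by rw [mul_one]; exact hgR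
      _ ≤ R * (4 * sv D t) := mul_le_mul_of_nonneg_left h1 hR0
      _ = 4 * R * sv D t := by ring
  have hYe : Yt t = (Nat.log 2 t) ^ 3 := by
    unfold Yt
    apply max_eq_right
    calc 3 ≤ 80 ^ 3 := by norm_num
      _ ≤ _ := Nat.pow_le_pow_left hl 3
  rcases Nat.lt_or_ge (Yt t) a.primeFactors.card with ho | ho
  · refine fin1 (2 ^ k) hk0 ?_ (by nlinarith)
    refine inv_le' D hg ht2 hl ?_
    rw [← hYe]
    have h1 := Pool.Agent.W308.PQ.omega_mul hg (fun p hp => (hps p hp).1)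
    rw [← hadef] at h1
    omega
  · have h3 : 3 ≤ Yt t := le_max_left _ _
    have h4 : Yt t ≤ Qt t := by
      rw [hYe]
      exact cube_le _ hl
    have h5 : Qt t ^ C ≤ X := by
      have h6 : Qt t ≤ t := by
        calc Qt t ≤ 2 ^ (Nat.log 2 t) := Nat.pow_le_pow_right (by norm_num) (Nat.div_le_self _ _)
          _ ≤ t := Nat.pow_log_le_self 2 (by omega)
      exact (Nat.pow_le_pow_left (h6.trans (hps t htps).2) C).trans hw
    have h7 := hC X (Yt t) (Qt t) a t h3 h4 h5 ha1 ha4 ho (hEx t htps) (by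
      unfold Exc at hE
      exact not_lt.mp hE)
    have h8 := ratio ht2 hl D
    rw [hXa] at h7
    calc (NP D a t X : ℝ) * Real.log X ≤ C * (X * (1 / g * P)) *
          (Real.log (Yt t) / Real.log (Qt t)) ^ (1 / 2 : ℝ) := h7
      _ ≤ C * (X * (R * P)) * (10 * sv D t) := by
          apply mul_le_mul _ h8 _ (by positivity)
          · apply mul_le_mul_of_nonneg_left _ hC0
            apply mul_le_mul_of_nonneg_left _ hX0.le
            exact mul_le_mul_of_nonneg_right hgR hP0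
          · exact Real.rpow_nonneg
              (div_nonneg (Real.log_natCast_nonneg _) (Real.log_natCast_nonneg _)) _
      _ = (10 * C) * ((R * (P * sv D t)) * X) := by ring
      _ ≤ (40 + 10 * C + 10 * 2 ^ k) * ((R * (P * sv D t)) * X) :=
          mul_le_mul_of_nonneg_right (by nlinarith) (by positivity)
      _ = _ := by ring

/-- the cofactor -/
def AA (i : ℕ × Finset ℕ) : ℕ := i.1 * ∏ p ∈ i.2, p

/-- the conditions on an index -/
def cond (D : Dat) (k X : ℕ) (i : ℕ × Finset ℕ) : Prop :=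
  NE D.c0 i.1 ∧ (∀ p ∈ i.2, p.Prime ∧ p ≤ wX X) ∧ i.2.card < k ∧
    (∀ p ∈ i.2, Ex D.c0 (AA i) p) ∧ 2 ≤ AA i ∧ (AA i) ^ 4 ≤ X

/-- the set counted -/
def SS (D : Dat) (k X : ℕ) : Set ℕ := {n : ℕ | 1 ≤ n ∧ n ≤ X ∧ Pass D n ∧ ¬ n.Prime ∧
    (EP D.c0 (wX X) n).card < k ∧
    ∃ r : ℕ, wX X < r ∧ Ex D.c0 n r ∧ ∀ r' : ℕ, wX X < r' → Ex D.c0 n r' → r' = r}

open scoped Classical in
/-- the counting bound -/
lemma count (gd : S_GD) (D : Dat) (k X : ℕ) (hw : (wX X) ^ (8 * k) ≤ X) :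
    ∃ (S1 : Finset ℕ) (I : Finset (ℕ × Finset ℕ)),
      (∀ g ∈ S1, 1 ≤ g ∧ X ≤ g ^ 8 ∧ ∀ p : ℕ, ¬ Ex D.c0 g p) ∧
      (∀ i ∈ I, cond D k X i) ∧
      ((SS D k X).ncard : ℝ) ≤ ∑ g ∈ S1, (X : ℝ) / g +
        ∑ i ∈ I, (NP D (AA i) (i.2.sup id) X : ℝ) := by
  set w := wX X with hwdef
  set S0 : Finset ℕ := (Icc 1 X).filter (fun g => ∀ p, ¬ Ex D.c0 g p) with hS0
  set S1 : Finset ℕ := S0.filter (fun g => X ≤ g ^ 8) with hS1
  set Q : Finset (Finset ℕ) := (PI 0 w).powerset.filter (fun ps => ps.card < k) with hQ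
  set I : Finset (ℕ × Finset ℕ) := (S0 ×ˢ Q).filter
    (fun i => (∀ t ∈ i.2, Ex D.c0 (AA i) t) ∧ 2 ≤ AA i ∧ (AA i) ^ 4 ≤ X) with hI
  have hPI : ∀ p, p ∈ PI 0 w ↔ p.Prime ∧ p ≤ w := by
    intro p
    rw [PI, Finset.mem_filter, Finset.mem_Ioc]
    exact ⟨fun h => ⟨h.2, h.1.2⟩, fun h => ⟨⟨h.1.pos, h.2⟩, h.1⟩⟩
  refine ⟨S1, I, ?_, ?_, ?_⟩
  · intro g hg
    rw [hS1, Finset.mem_filter, hS0, Finset.mem_filter, Finset.mem_Icc] at hg
    exact ⟨hg.1.1.1, hg.2, hg.1.2⟩
  · intro i hi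
    rw [hI, Finset.mem_filter, Finset.mem_product, hS0, Finset.mem_filter, Finset.mem_Icc, hQ,
      Finset.mem_filter, Finset.mem_powerset] at hi
    obtain ⟨⟨⟨h1, h2⟩, h3, h4⟩, h5, h6, h7⟩ := hi
    exact ⟨⟨h1.1, h2⟩, fun p hp => (hPI p).mp (h3 hp), h4, h5, h6, h7⟩
  let F : ℕ × Finset ℕ → Set ℕ := fun i =>
    {p : ℕ | p.Prime ∧ i.2.sup id < p ∧ p ≤ X / (AA i) ∧ Pass D ((AA i) * p)}
  have hF : ∀ i, (F i).Finite := fun i => NP_fin D (AA i) (i.2.sup id) X
  let U1 : Finset ℕ := S1.biUnion fun g => (Ioc 0 X).filter (g ∣ ·)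
  let U2 : Finset ℕ := I.biUnion fun i =>
    (hF i).toFinset.image fun p => (AA i) * p
  have hsub : SS D k X ⊆ ((U1 ∪ U2 : Finset ℕ) : Set ℕ) := by
    rintro n ⟨hn1, hnX, hpass, hnp, hcard, r, hr, hE, hu⟩
    obtain ⟨g, hg, hex, hn, hEx⟩ := Pool.Agent.W308.PQ.decomp gd hn1 hr hE hu
    have hgn : g ∣ n := by
      rw [hn, mul_assoc]
      exact Dvd.intro _ rfl
    have hgX : g ≤ X := (Nat.le_of_dvd hn1 hgn).trans hnX
    have hgS0 : g ∈ S0 := by
      rw [hS0, Finset.mem_filter, Finset.mem_Icc]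
      exact ⟨⟨hg, hgX⟩, hex⟩
    set ps := EP D.c0 w n with hps
    have hpsm : ∀ p ∈ ps, p.Prime ∧ p ≤ w := by
      intro p hp
      rw [hps, EP, Finset.mem_filter, Finset.mem_Icc] at hp
      exact ⟨hp.2.1, hp.1.2⟩
    have hAA : AA (g, ps) = g * ∏ p ∈ ps, p := rfl
    have ha1 : 1 ≤ AA (g, ps) := by
      rw [hAA]
      exact Nat.mul_pos hg (Finset.one_le_prod' fun p hp => (hpsm p hp).1.one_le)
    have ha2 : 2 ≤ AA (g, ps) := by
      rcases Nat.lt_or_ge (AA (g, ps)) 2 with h | h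
      · exfalso
        have h1 : AA (g, ps) = 1 := by omega
        rw [← hAA, h1, one_mul] at hn
        exact hnp (hn ▸ hE.1)
      · exact h
    rw [Finset.coe_union, Set.mem_union]
    rcases Nat.lt_or_ge X ((AA (g, ps)) ^ 4) with hG | hG
    · left
      rw [Finset.mem_coe, Finset.mem_biUnion]
      refine ⟨g, ?_, ?_⟩
      · rw [hS1, Finset.mem_filter]
        refine ⟨hgS0, ?_⟩
        have h1 : ∏ p ∈ ps, p ≤ w ^ k := by
          calc ∏ p ∈ ps, p ≤ ∏ _p ∈ ps, w :=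
                Finset.prod_le_prod' fun p hp => (hpsm p hp).2
            _ = w ^ ps.card := Finset.prod_const _
            _ ≤ w ^ k := by
                rcases Finset.eq_empty_or_nonempty ps with h | ⟨p, hp⟩
                · rcases Nat.eq_zero_or_pos w with h0 | h0
                  · rw [h, Finset.card_empty, pow_zero]
                    rcases Nat.eq_zero_or_pos k with hk | hk
                    · rw [hk, pow_zero]
                    · exfalso
                      have : w ^ (8 * k) ≤ X := hw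
                      have hG' : X < (AA (g, ps)) ^ 4 := hG
                      have hw0 : 1 ≤ wX X := by
                        unfold wX
                        rw [Nat.one_le_floor_iff]
                        exact Real.one_le_exp (Real.rpow_nonneg (Real.log_natCast_nonneg _) _)
                      omega
                  · exact Nat.pow_le_pow_right h0 (hcard.le)
                · have h0 : 0 < w := (hpsm p hp).1.pos.trans_le (hpsm p hp).2
                  exact Nat.pow_le_pow_right h0 (hcard.le)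
        have h2 : AA (g, ps) ≤ g * w ^ k := by
          rw [hAA]
          exact Nat.mul_le_mul_left g h1
        have h3 : X < (g * w ^ k) ^ 4 := hG.trans_le (Nat.pow_le_pow_left h2 4)
        have h4 : X * X < (g * w ^ k) ^ 4 * (g * w ^ k) ^ 4 := Nat.mul_lt_mul'' h3 h3
        have h5 : (g * w ^ k) ^ 4 * (g * w ^ k) ^ 4 = g ^ 8 * w ^ (8 * k) := by
          rw [← pow_add, mul_pow, ← pow_mul]
          ring_nf
        have h6 : X * X < g ^ 8 * X := by
          rw [h5] at h4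
          exact h4.trans_le (Nat.mul_le_mul_left _ hw)
        exact (lt_of_mul_lt_mul_right h6 (Nat.zero_le X)).le
      · rw [Finset.mem_filter, Finset.mem_Ioc]
        exact ⟨⟨hn1, hnX⟩, hgn⟩
    · right
      have hpsQ : ps ∈ Q := Finset.mem_filter.mpr
        ⟨Finset.mem_powerset.mpr fun p hp => (hPI p).mpr (hpsm p hp), hcard⟩
      rw [Finset.mem_coe, Finset.mem_biUnion]
      refine ⟨(g, ps), Finset.mem_filter.mpr ⟨Finset.mem_product.mpr ⟨hgS0, hpsQ⟩,
        hEx, ha2, hG⟩, ?_⟩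
      rw [Finset.mem_image]
      refine ⟨r, ?_, hn.symm⟩
      rw [Set.Finite.mem_toFinset]
      refine ⟨hE.1, ?_, ?_, ?_⟩
      · refine lt_of_le_of_lt ?_ hr
        exact Finset.sup_le fun p hp => (hpsm p hp).2
      · rw [Nat.le_div_iff_mul_le ha1, mul_comm]
        calc AA (g, ps) * r = n := hn.symm
          _ ≤ X := hnX
      · change Pass D ((g * ∏ p ∈ ps, p) * r)
        rw [← hn]
        exact hpass
  have h1 : ((SS D k X).ncard : ℝ) ≤ ((U1 ∪ U2 : Finset ℕ).card : ℝ) := by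
    have := Set.ncard_le_ncard hsub (Finset.finite_toSet _)
    rw [Set.ncard_coe_finset] at this
    exact_mod_cast this
  have h2 : ((U1 ∪ U2 : Finset ℕ).card : ℝ) ≤ (U1.card : ℝ) + (U2.card : ℝ) := by
    exact_mod_cast Finset.card_union_le _ _
  have h3 : (U1.card : ℝ) ≤ ∑ g ∈ S1, (X : ℝ) / g := by
    calc (U1.card : ℝ) ≤ ((∑ g ∈ S1, ((Ioc 0 X).filter (g ∣ ·)).card : ℕ) : ℝ) := by
          exact_mod_cast Finset.card_biUnion_le
      _ = ∑ g ∈ S1, ((X / g : ℕ) : ℝ) := by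
          rw [Nat.cast_sum]
          refine Finset.sum_congr rfl fun g _ => ?_
          rw [Nat.Ioc_filter_dvd_card_eq_div]
      _ ≤ ∑ g ∈ S1, (X : ℝ) / g := Finset.sum_le_sum fun g _ => Nat.cast_div_le
  have h4 : (U2.card : ℝ) ≤ ∑ i ∈ I, (NP D (AA i) (i.2.sup id) X : ℝ) := by
    calc (U2.card : ℝ) ≤ ((∑ i ∈ I, ((hF i).toFinset.image
            fun p => (AA i) * p).card : ℕ) : ℝ) := by
          exact_mod_cast Finset.card_biUnion_le
      _ ≤ ∑ i ∈ I, (NP D (AA i) (i.2.sup id) X : ℝ) := by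
          rw [Nat.cast_sum]
          refine Finset.sum_le_sum fun i _ => ?_
          unfold NP
          rw [Set.ncard_eq_toFinset_card _ (hF i)]
          exact_mod_cast Finset.card_image_le
  calc _ ≤ ((U1 ∪ U2 : Finset ℕ).card : ℝ) := h1
    _ ≤ (U1.card : ℝ) + (U2.card : ℝ) := h2
    _ ≤ _ := add_le_add h3 h4

theorem cd (ccs : S_CCS) (cf' : S_CF) (g56 : S_G56) (psum : S_PSUM) (gs : S_GS) (gd : S_GD) :
    S_CD := by
  intro D hD k
  classical
  obtain ⟨C, hC1, hC⟩ := ccs D hD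
  obtain ⟨Cg, hCg1, hGS⟩ := gs D.c0 hD.c0_pos
  set K : ℝ := 40 + 10 * C + 10 * 2 ^ k with hK
  have hC0 : (0 : ℝ) ≤ C := Nat.cast_nonneg _
  have hk0 : (0 : ℝ) ≤ 2 ^ k := by positivity
  have hK0 : 0 ≤ K := by positivity
  have hlog : ∀ X : ℕ, 0 ≤ Real.log X := fun X => Real.log_natCast_nonneg X
  let fg : ℕ → ℝ := fun g => if NE D.c0 g then (g : ℝ) ^ (-(5 / 6) : ℝ) else 0
  let F2 : Finset ℕ → ℝ := fun ps =>
    if AdP k ps then (∏ p ∈ ps, (1 / (p : ℝ))) * sv D (ps.sup id) else 0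
  let Fp : Finset ℕ → ℝ := fun ps => (if ps = ∅ then 1 else 0) + F2 ps
  have hfg : Summable fg := g56 D.c0 hD.c0_pos
  have hF2 : Summable F2 := psum D hD.rho_up hD.κ1 k
  have hF1 : Summable (fun ps : Finset ℕ => if ps = ∅ then (1 : ℝ) else 0) :=
    summable_of_ne_finset_zero (s := {∅}) (by
      intro ps hps
      rw [Finset.mem_singleton] at hps
      rw [if_neg hps])
  have hFp : Summable Fp := hF1.add hF2
  have hfg0 : ∀ g, 0 ≤ fg g := by
    intro g
    simp only [fg]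
    split_ifs
    · exact Real.rpow_nonneg (Nat.cast_nonneg _) _
    · exact le_refl _
  have hF20 : ∀ ps, 0 ≤ F2 ps := by
    intro ps
    simp only [F2]
    split_ifs
    · exact mul_nonneg (Finset.prod_nonneg fun p _ => by positivity) (sv_nonneg D _)
    · exact le_refl _
  have hFp0 : ∀ ps, 0 ≤ Fp ps := by
    intro ps
    simp only [Fp]
    have := hF20 ps
    split_ifs <;> linarith
  let bd : ℕ × Finset ℕ → ℝ := fun i => K * (fg i.1 * Fp i.2)
  have hbs : Summable bd := (Summable.mul_of_nonneg hfg hFp hfg0 hFp0).mul_left K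
  let u : ℕ → ℕ × Finset ℕ → ℝ := fun X i =>
    if cond D k X i then (NP D (AA i) (i.2.sup id) X : ℝ) * Real.log X / X else 0
  have hu0 : ∀ X i, 0 ≤ u X i := by
    intro X i
    simp only [u]
    have := hlog X
    split_ifs <;> positivity
  have hub : ∀ X, 2 ≤ X → (wX X) ^ C ≤ X → ∀ i, u X i ≤ bd i := by
    intro X hX hw i
    obtain ⟨g, ps⟩ := i
    by_cases h1 : cond D k X (g, ps)
    · have hu : u X (g, ps) = (NP D (AA (g, ps)) (ps.sup id) X : ℝ) * Real.log X / X := by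
        simp only [u]
        rw [if_pos h1]
      rw [hu]
      obtain ⟨hne, hps, hcard, hEx, h2, h4⟩ := h1
      have hg1 : 1 ≤ g := hne.1
      have hX0 : (0 : ℝ) < X := by
        have : 0 < X := by omega
        exact_mod_cast this
      have hfgv : fg g = (g : ℝ) ^ (-(5 / 6) : ℝ) := by
        simp only [fg]
        rw [if_pos hne]
      rcases Finset.eq_empty_or_nonempty ps with h | h
      · subst h
        have hA : AA (g, (∅ : Finset ℕ)) = g := by simp [AA]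
        rw [hA] at h4 ⊢
        have k1 := NP_triv D g ((∅ : Finset ℕ).sup id) X hg1 hX h4
        have k2 : (1 : ℝ) ≤ Fp ∅ := by
          simp only [Fp, if_true]
          have := hF20 ∅
          linarith
        have k3 := inv_le hg1
        change _ ≤ K * (fg g * Fp ∅)
        rw [div_le_iff₀ hX0, hfgv]
        have hR0 : 0 ≤ (g : ℝ) ^ (-(5 / 6) : ℝ) := Real.rpow_nonneg (Nat.cast_nonneg _) _
        calc (NP D g ((∅ : Finset ℕ).sup id) X : ℝ) * Real.log X ≤ 10 * ((X : ℝ) / g) := k1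
          _ = 10 * (1 / (g : ℝ)) * X := by ring
          _ ≤ K * ((g : ℝ) ^ (-(5 / 6) : ℝ) * Fp ∅) * X := by
              apply mul_le_mul_of_nonneg_right _ hX0.le
              apply mul_le_mul _ _ (by positivity) hK0
              · rw [hK]
                linarith
              · exact k3.trans (le_mul_of_one_le_right hR0 k2)
      · have k1 := term D k C hC X hX hw g ps hg1 hps hcard h hEx h4
        have hAd : AdP k ps := ⟨fun p hp => (hps p hp).1, hcard, h⟩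
        have k2 : F2 ps = (∏ p ∈ ps, (1 / (p : ℝ))) * sv D (ps.sup id) := by
          simp only [F2]
          rw [if_pos hAd]
        have k3 : Fp ps = F2 ps := by
          simp only [Fp]
          rw [if_neg h.ne_empty, zero_add]
        change _ ≤ K * (fg g * Fp ps)
        rw [hfgv, k3, k2]
        exact k1
    · have hu : u X (g, ps) = 0 := by
        simp only [u]
        rw [if_neg h1]
      rw [hu]
      exact mul_nonneg hK0 (mul_nonneg (hfg0 _) (hFp0 _))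
  have hlim : Tendsto (fun X => ∑' i, u X i) atTop (𝓝 0) := by
    have := tendsto_tsum_of_dominated_convergence (𝓕 := atTop) (f := u) (g := fun _ => (0 : ℝ))
      (bound := bd) hbs (fun i => ?_) (by
        filter_upwards [eventually_ge_atTop 2, wX_pow C] with X hX hw i
        rw [Real.norm_eq_abs, abs_of_nonneg (hu0 X i)]
        exact hub X hX hw i)
    · simpa using this
    · by_cases hg : 2 ≤ AA i
      · have h1 := cf' D hD (AA i) hg
        refine squeeze_zero (fun X => hu0 X i) (fun X => ?_) h1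
        simp only [u]
        have hn : (NP D (AA i) (i.2.sup id) X : ℝ) ≤
            ({p : ℕ | p.Prime ∧ p ≤ X / (AA i) ∧ Pass D ((AA i) * p)}.ncard : ℝ) := by
          exact_mod_cast NP_le_NN D (AA i) (i.2.sup id) X
        have h3 := hlog X
        split_ifs
        · exact div_le_div_of_nonneg_right (mul_le_mul_of_nonneg_right hn h3) (Nat.cast_nonneg _)
        · positivity
      · have : (fun X => u X i) = fun _ => 0 := by
          funext X
          simp only [u]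
          rw [if_neg]
          rintro ⟨_, _, _, _, h5, _⟩
          exact hg h5
        rw [this]
        exact tendsto_const_nhds
  have hlim2 : Tendsto (fun X : ℕ => Cg * (Real.log X * (X : ℝ) ^ (-(1 / 24) : ℝ))) atTop
      (𝓝 0) := by
    have h1 : Tendsto (fun x : ℝ => Real.log x * x ^ (-(1 / 24) : ℝ)) atTop (𝓝 0) := by
      have h2 := (isLittleO_log_rpow_atTop
        (show (0 : ℝ) < 1 / 24 by norm_num)).tendsto_div_nhds_zero
      refine h2.congr' ?_
      filter_upwards [eventually_gt_atTop 0] with x hx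
      rw [Real.rpow_neg hx.le, div_eq_mul_inv]
    have := (h1.comp tendsto_natCast_atTop_atTop).const_mul Cg
    rw [mul_zero] at this
    exact this
  have hsum := hlim2.add hlim
  rw [add_zero] at hsum
  refine squeeze_zero' (Eventually.of_forall fun X => ?_) ?_ hsum
  · have := hlog X
    positivity
  · filter_upwards [eventually_ge_atTop 2, wX_pow C, wX_pow (8 * k)] with X hX hw hw8
    have hX0 : (0 : ℝ) < X := by
      have : 0 < X := by omega
      exact_mod_cast this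
    have hX1 : (1 : ℝ) ≤ X := by
      have : 1 ≤ X := by omega
      exact_mod_cast this
    obtain ⟨S1, I, hS1, hI, hbd⟩ := count gd D k X hw8
    have hsu : Summable (u X) := Summable.of_nonneg_of_le (hu0 X) (hub X hX hw) hbs
    have e1 : (∑ i ∈ I, (NP D (AA i) (i.2.sup id) X : ℝ)) * Real.log X / X ≤ ∑' i, u X i := by
      refine le_trans (le_of_eq ?_) (hsu.sum_le_tsum I (fun i _ => hu0 X i))
      rw [Finset.sum_mul, Finset.sum_div]
      refine Finset.sum_congr rfl fun i hi => ?_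
      simp only [u]
      rw [if_pos (hI i hi)]
    have e2 : (∑ g ∈ S1, (X : ℝ) / g) * Real.log X / X ≤
        Cg * (Real.log X * (X : ℝ) ^ (-(1 / 24) : ℝ)) := by
      have k0 : ∑ g ∈ S1, (X : ℝ) / g = X * ∑ g ∈ S1, (1 : ℝ) / g := by
        rw [Finset.mul_sum]
        refine Finset.sum_congr rfl fun g _ => ?_
        ring
      have k2 := hGS ((X : ℝ) ^ (1 / 8 : ℝ)) S1 (Real.one_le_rpow hX1 (by norm_num)) (by
        intro g hg
        obtain ⟨q1, q2, q3⟩ := hS1 g hg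
        refine ⟨?_, q3⟩
        have q4 : (X : ℝ) ≤ (g : ℝ) ^ 8 := by exact_mod_cast q2
        calc (X : ℝ) ^ (1 / 8 : ℝ) ≤ ((g : ℝ) ^ 8) ^ (1 / 8 : ℝ) :=
              Real.rpow_le_rpow hX0.le q4 (by norm_num)
          _ = g := by
              rw [← Real.rpow_natCast, ← Real.rpow_mul (Nat.cast_nonneg _)]
              norm_num)
      have k3 : ((X : ℝ) ^ (1 / 8 : ℝ)) ^ (-(1 / 3) : ℝ) = (X : ℝ) ^ (-(1 / 24) : ℝ) := by
        rw [← Real.rpow_mul hX0.le]
        norm_num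
      rw [k3] at k2
      rw [k0, div_le_iff₀ hX0]
      calc X * (∑ g ∈ S1, (1 : ℝ) / g) * Real.log X ≤
            X * (Cg * (X : ℝ) ^ (-(1 / 24) : ℝ)) * Real.log X :=
            mul_le_mul_of_nonneg_right (mul_le_mul_of_nonneg_left k2 hX0.le) (hlog X)
        _ = _ := by ring
    calc ((SS D k X).ncard : ℝ) * Real.log X / X
        ≤ (∑ g ∈ S1, (X : ℝ) / g + ∑ i ∈ I, (NP D (AA i) (i.2.sup id) X : ℝ)) *
            Real.log X / X :=
          div_le_div_of_nonneg_right (mul_le_mul_of_nonneg_right hbd (hlog X)) hX0.le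
      _ = (∑ g ∈ S1, (X : ℝ) / g) * Real.log X / X +
          (∑ i ∈ I, (NP D (AA i) (i.2.sup id) X : ℝ)) * Real.log X / X := by ring
      _ ≤ _ := add_le_add e2 e1

end Pool.Agent.Y461.SG
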