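import Pool.Agent.Y346.SG.Stm
import Pool.Agent.W407.PQ.C2
import Pool.Agent.W308.PQ.C1

/-! # Project SG, task CD: elementary lemmas -/

set_option autoImplicit false

namespace Pool.Agent.Y461.SG

open Finset Filter Topology
open Pool.Agent.H951R4.OD (ch PI Ex)
open Pool.Agent.W114.PQ (Dat Pass EP wX Dk S_GS S_GD)
open Pool.Agent.Y346.SG

/-- powers of `wX` -/
lemma wX_pow (m : ℕ) : ∀ᶠ X : ℕ in atTop, (wX X) ^ m ≤ X := by
  have hL : Tendsto (fun X : ℕ => Real.log X) atTop atTop :=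
    Real.tendsto_log_atTop.comp tendsto_natCast_atTop_atTop
  have hq : Tendsto (fun X : ℕ => (Real.log X) ^ (1 / 4 : ℝ)) atTop atTop :=
    (tendsto_rpow_atTop (by norm_num)).comp hL
  filter_upwards [hL.eventually (eventually_gt_atTop 0), hq.eventually (eventually_ge_atTop (m : ℝ)),
    eventually_gt_atTop 0] with X h1 h2 h3
  have hX0 : (0 : ℝ) < X := by exact_mod_cast h3
  have h4 : (wX X : ℝ) ≤ Real.exp ((Real.log X) ^ (3 / 4 : ℝ)) := Nat.floor_le (Real.exp_pos _).le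
  have h5 : ((wX X : ℝ)) ^ m ≤ X := by
    calc ((wX X : ℝ)) ^ m ≤ (Real.exp ((Real.log X) ^ (3 / 4 : ℝ))) ^ m :=
          pow_le_pow_left₀ (Nat.cast_nonneg _) h4 m
      _ = Real.exp (m * (Real.log X) ^ (3 / 4 : ℝ)) := (Real.exp_nat_mul _ _).symm
      _ ≤ Real.exp (Real.log X) := by
          apply Real.exp_le_exp.mpr
          calc (m : ℝ) * (Real.log X) ^ (3 / 4 : ℝ) ≤
              (Real.log X) ^ (1 / 4 : ℝ) * (Real.log X) ^ (3 / 4 : ℝ) :=
                mul_le_mul_of_nonneg_right h2 (Real.rpow_nonneg h1.le _)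
            _ = Real.log X := by
                rw [← Real.rpow_add h1]
                norm_num
      _ = X := Real.exp_log hX0
  exact_mod_cast h5

lemma cube_le (l : ℕ) (h : 80 ≤ l) : l ^ 3 ≤ 2 ^ (l / 4) := by
  have key : ∀ j : ℕ, 20 ≤ j → (4 * j + 3) ^ 3 ≤ 2 ^ j := by
    intro j hj
    induction j, hj using Nat.le_induction with
    | base => norm_num
    | succ n hn ih =>
      have : (4 * (n + 1) + 3) ^ 3 ≤ 2 * (4 * n + 3) ^ 3 := by
        obtain ⟨m, rfl⟩ := Nat.exists_eq_add_of_le hn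
        ring_nf
        nlinarith [sq_nonneg m, Nat.zero_le (m ^ 3)]
      calc (4 * (n + 1) + 3) ^ 3 ≤ 2 * (4 * n + 3) ^ 3 := this
        _ ≤ 2 * 2 ^ n := Nat.mul_le_mul_left 2 ih
        _ = 2 ^ (n + 1) := by ring
  have h1 := key (l / 4) (by omega)
  have h2 : l ≤ 4 * (l / 4) + 3 := by omega
  exact (Nat.pow_le_pow_left h2 3).trans h1

lemma omega_pow {g : ℕ} (hg : 1 ≤ g) : 2 ^ g.primeFactors.card ≤ g := by
  have h1 : 2 ^ g.primeFactors.card ≤ ∏ p ∈ g.primeFactors, p := by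
    rw [← Finset.prod_const]
    exact Finset.prod_le_prod (fun p _ => by norm_num)
      fun p hp => (Nat.prime_of_mem_primeFactors hp).two_le
  exact h1.trans (Nat.le_of_dvd hg (Nat.prod_primeFactors_dvd g))

/-- logs of `t` -/
lemma logt {t : ℕ} (ht : 2 ≤ t) : Real.log ((max t 3 : ℕ) : ℝ) ≤ 2 * (Nat.log 2 t : ℝ) := by
  set l := Nat.log 2 t with hl
  have hl1 : 1 ≤ l := Nat.le_log_of_pow_le (by norm_num) (by simpa using ht)
  have h1 : t < 2 ^ (l + 1) := Nat.lt_pow_succ_log_self (by norm_num) t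
  have h2 : max t 3 ≤ 2 ^ (l + 1) := by
    apply max_le h1.le
    calc 3 ≤ 2 ^ 2 := by norm_num
      _ ≤ 2 ^ (l + 1) := Nat.pow_le_pow_right (by norm_num) (by omega)
  have h3 : ((max t 3 : ℕ) : ℝ) ≤ 2 ^ (l + 1) := by exact_mod_cast h2
  have h0 : (0 : ℝ) < ((max t 3 : ℕ) : ℝ) := by
    have : 0 < max t 3 := by omega
    exact_mod_cast this
  have h4 := Real.log_le_log h0 h3
  rw [Real.log_pow] at h4
  have h5 := Real.log_two_lt_d9
  have h6 : (1 : ℝ) ≤ l := by exact_mod_cast hl1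
  have e : ((l + 1 : ℕ) : ℝ) = l + 1 := by push_cast; ring
  rw [e] at h4
  nlinarith

lemma logt_pos (t : ℕ) : 1 < Real.log ((max t 3 : ℕ) : ℝ) := by
  rw [Real.lt_log_iff_exp_lt (by
    have : 0 < max t 3 := by omega
    exact_mod_cast this)]
  have h1 : (3 : ℝ) ≤ ((max t 3 : ℕ) : ℝ) := by
    have : 3 ≤ max t 3 := by omega
    exact_mod_cast this
  have := Real.exp_one_lt_d9
  linarith

lemma sv_nonneg (D : Dat) (t : ℕ) : 0 ≤ sv D t := by
  unfold sv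
  have := logt_pos t
  have h2 : 0 ≤ (Real.log ((max t 3 : ℕ) : ℝ)) ^ (-(1 / 4) : ℝ) :=
    Real.rpow_nonneg (by linarith) _
  split_ifs <;> linarith

lemma sv_exc (D : Dat) {t : ℕ} (h : Exc D t) : 1 ≤ sv D t := by
  unfold sv
  rw [if_pos h]
  have := logt_pos t
  have h2 : 0 ≤ (Real.log ((max t 3 : ℕ) : ℝ)) ^ (-(1 / 4) : ℝ) :=
    Real.rpow_nonneg (by linarith) _
  linarith

lemma sv_ge (D : Dat) (t : ℕ) : (Real.log ((max t 3 : ℕ) : ℝ)) ^ (-(1 / 4) : ℝ) ≤ sv D t := by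
  unfold sv
  split_ifs <;> linarith

/-- the bound in terms of `l = log₂ t` -/
lemma sv_ge' (D : Dat) {t : ℕ} (ht : 2 ≤ t) :
    (2 * (Nat.log 2 t : ℝ)) ^ (-(1 / 4) : ℝ) ≤ sv D t := by
  refine le_trans ?_ (sv_ge D t)
  have := logt_pos t
  exact Real.rpow_le_rpow_of_nonpos (by linarith) (logt ht) (by norm_num)

lemma sv_small (D : Dat) {t : ℕ} (ht : 2 ≤ t) (h : Nat.log 2 t < 80) : 1 ≤ 4 * sv D t := by
  have h1 := sv_ge' D ht
  have hl1 : 1 ≤ Nat.log 2 t := Nat.le_log_of_pow_le (by norm_num) (by simpa using ht)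
  have h2 : (0 : ℝ) < 2 * (Nat.log 2 t : ℝ) := by
    have : (1 : ℝ) ≤ (Nat.log 2 t : ℝ) := by exact_mod_cast hl1
    linarith
  have h3 : 2 * (Nat.log 2 t : ℝ) ≤ 256 := by
    have : (Nat.log 2 t : ℝ) ≤ 80 := by exact_mod_cast h.le
    linarith
  have h4 : (256 : ℝ) ^ (-(1 / 4) : ℝ) ≤ (2 * (Nat.log 2 t : ℝ)) ^ (-(1 / 4) : ℝ) :=
    Real.rpow_le_rpow_of_nonpos h2 h3 (by norm_num)
  have h5 : (256 : ℝ) ^ (-(1 / 4) : ℝ) = 1 / 4 := by
    rw [show (256 : ℝ) = 4 ^ (4 : ℝ) by norm_num, ← Real.rpow_mul (by norm_num)]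
    norm_num
  linarith

/-- the ratio of the logarithms -/
lemma ratio {t : ℕ} (ht : 2 ≤ t) (h : 80 ≤ Nat.log 2 t) (D : Dat) :
    (Real.log (Yt t) / Real.log (Qt t)) ^ (1 / 2 : ℝ) ≤ 10 * sv D t := by
  set l := Nat.log 2 t with hl
  have hl80 : (80 : ℝ) ≤ l := by exact_mod_cast h
  have hl0 : (0 : ℝ) < l := by linarith
  have hY : Yt t = l ^ 3 := by
    unfold Yt
    rw [← hl]
    apply max_eq_right
    calc 3 ≤ 80 ^ 3 := by norm_num
      _ ≤ l ^ 3 := Nat.pow_le_pow_left h 3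
  have hQ : Qt t = 2 ^ (l / 4) := rfl
  have h1 : Real.log (Yt t) = 3 * Real.log l := by
    rw [hY]
    push_cast
    rw [Real.log_pow]
    norm_num
  have h2 : Real.log (Qt t) = ((l / 4 : ℕ) : ℝ) * Real.log 2 := by
    rw [hQ]
    push_cast
    rw [Real.log_pow]
  have h3 : (l : ℝ) / 8 ≤ ((l / 4 : ℕ) : ℝ) := by
    have : l ≤ 8 * (l / 4) := by omega
    have h' : (l : ℝ) ≤ 8 * ((l / 4 : ℕ) : ℝ) := by exact_mod_cast this
    linarith
  have h4 := Real.log_two_gt_d9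
  have h5 : 0.0866 * (l : ℝ) ≤ Real.log (Qt t) := by
    rw [h2]
    nlinarith
  have hs : 0 < √(l : ℝ) := Real.sqrt_pos.2 hl0
  have hss : √(l : ℝ) * √(l : ℝ) = l := Real.mul_self_sqrt hl0.le
  have h6 : Real.log l ≤ 2 * √(l : ℝ) := by
    have h7 := Real.log_le_sub_one_of_pos hs
    rw [Real.log_sqrt hl0.le] at h7
    linarith
  have h8 : Real.log (Yt t) / Real.log (Qt t) ≤ 70 / √(l : ℝ) := by
    rw [h1, div_le_div_iff₀ (by linarith) hs]
    have h9 : 3 * Real.log l * √(l : ℝ) ≤ 6 * l := by nlinarith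
    nlinarith
  have h10 : 70 / √(l : ℝ) ≤ (10 * (2 * (l : ℝ)) ^ (-(1 / 4) : ℝ)) ^ (2 : ℝ) := by
    rw [Real.mul_rpow (by norm_num) (Real.rpow_nonneg (by positivity) _), ← Real.rpow_mul
      (by positivity)]
    have e1 : (-(1 / 4) : ℝ) * 2 = -(1 / 2) := by norm_num
    rw [e1, Real.rpow_neg (by positivity), ← Real.sqrt_eq_rpow, Real.sqrt_mul (by norm_num),
      ← div_eq_mul_inv]
    have h11 : √2 ≤ (1.4143 : ℝ) := by
      rw [Real.sqrt_le_left (by norm_num)]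
      norm_num
    have h12 : 0 < √(2 : ℝ) := by positivity
    rw [div_le_div_iff₀ hs (by positivity)]
    have e2 : (10 : ℝ) ^ (2 : ℝ) = 100 := by norm_num
    rw [e2]
    have : 70 * √(2 : ℝ) ≤ 100 := by nlinarith
    nlinarith
  have h13 : 0 ≤ 10 * (2 * (l : ℝ)) ^ (-(1 / 4) : ℝ) := by positivity
  have hR0 : 0 ≤ Real.log (Yt t) / Real.log (Qt t) :=
    div_nonneg (Real.log_natCast_nonneg _) (Real.log_natCast_nonneg _)
  calc (Real.log (Yt t) / Real.log (Qt t)) ^ (1 / 2 : ℝ) ≤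
      ((10 * (2 * (l : ℝ)) ^ (-(1 / 4) : ℝ)) ^ (2 : ℝ)) ^ (1 / 2 : ℝ) :=
        Real.rpow_le_rpow hR0 (h8.trans h10) (by norm_num)
    _ = 10 * (2 * (l : ℝ)) ^ (-(1 / 4) : ℝ) := by
        rw [← Real.rpow_mul h13]
        norm_num
    _ ≤ 10 * sv D t := by
        have := sv_ge' D ht
        rw [← hl] at this
        linarith

end Pool.Agent.Y461.SG
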